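import Pool.Agent.N210.EQ.Core

/-!
# Means over finite groups and decoupling of the coordinates
-/

namespace Pool.Agent.N210.EQ

open Finset

/-- the mean of a function on a finite type -/
noncomputable def avg (A : Type) (f : A → ℝ) : ℝ := (∑ᶠ a, f a) / (Nat.card A : ℝ)

section avg

variable {A B : Type} [Finite A] [Finite B]

theorem avg_eq [Fintype A] (f : A → ℝ) : avg A f = (∑ a, f a) / (Fintype.card A : ℝ) := by
  unfold avg
  rw [finsum_eq_sum_of_fintype, Nat.card_eq_fintype_card]

omit [Finite B] in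
theorem avg_const [Nonempty A] (c : ℝ) : avg A (fun _ => c) = c := by
  cases nonempty_fintype A
  rw [avg_eq]
  have h : (Fintype.card A : ℝ) ≠ 0 := by exact_mod_cast Fintype.card_ne_zero
  simp [field]

omit [Finite B] in
theorem avg_sub (f g : A → ℝ) : avg A (fun a => f a - g a) = avg A f - avg A g := by
  cases nonempty_fintype A
  rw [avg_eq, avg_eq, avg_eq, sum_sub_distrib, sub_div]

omit [Finite B] in
theorem avg_add (f g : A → ℝ) : avg A (fun a => f a + g a) = avg A f + avg A g := by
  cases nonempty_fintype A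
  rw [avg_eq, avg_eq, avg_eq, sum_add_distrib, add_div]

omit [Finite B] in
theorem avg_mul_left (c : ℝ) (f : A → ℝ) : avg A (fun a => c * f a) = c * avg A f := by
  cases nonempty_fintype A
  rw [avg_eq, avg_eq, ← mul_sum, mul_div_assoc]

omit [Finite B] in
theorem avg_mul_right (c : ℝ) (f : A → ℝ) : avg A (fun a => f a * c) = avg A f * c := by
  cases nonempty_fintype A
  rw [avg_eq, avg_eq, ← sum_mul, div_mul_eq_mul_div]

omit [Finite B] in
theorem abs_avg_le (f : A → ℝ) : |avg A f| ≤ avg A (fun a => |f a|) := by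
  cases nonempty_fintype A
  rw [avg_eq, avg_eq, abs_div, abs_of_nonneg (Nat.cast_nonneg (Fintype.card A) : (0 : ℝ) ≤ _)]
  gcongr
  exact abs_sum_le_sum_abs _ _

omit [Finite B] in
theorem avg_mono {f g : A → ℝ} (h : ∀ a, f a ≤ g a) : avg A f ≤ avg A g := by
  cases nonempty_fintype A
  rw [avg_eq, avg_eq]
  gcongr
  exact h _

omit [Finite B] in
theorem avg_le [Nonempty A] {f : A → ℝ} {c : ℝ} (h : ∀ a, f a ≤ c) : avg A f ≤ c :=
  (avg_mono h).trans (avg_const c).le

theorem avg_equiv (e : A ≃ B) (f : B → ℝ) : avg A (fun a => f (e a)) = avg B f := by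
  cases nonempty_fintype A
  cases nonempty_fintype B
  rw [avg_eq, avg_eq, e.sum_comp, Fintype.card_congr e]

theorem avg_comm (f : A → B → ℝ) :
    avg A (fun a => avg B (fun b => f a b)) = avg B (fun b => avg A (fun a => f a b)) := by
  cases nonempty_fintype A
  cases nonempty_fintype B
  simp only [avg_eq]
  rw [← sum_div, ← sum_div, sum_comm, div_div, div_div, mul_comm]

end avg

variable {ι : Type} {Y : ι → Type}

namespace SpecialPoint

variable (s : SpecialPoint ι Y)

/-- the `j`-th coordinate of `γ x` -/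
def at' (j : ι) (γ : s.Gam) : s.O j := s.rho j γ (s.x j)

/-- the point `γ x` of the product -/
def point (γ : s.Gam) : ∀ j, Y j := fun j => s.pt j (s.at' j γ)

/-- the Galois orbit `Gal(Qbar/F) x`, a finite subset of the product -/
def orbit : Set (∀ j, Y j) := Set.range s.point

/-- the mean of a function over the Galois orbit -/
noncomputable def mean (Φ : (∀ j, Y j) → ℝ) : ℝ :=
  (∑ᶠ y ∈ s.orbit, Φ y) / (s.orbit.ncard : ℝ)

/-- an element of `N` as an element of `Gam` -/
def toGam (σ : s.N) : s.Gam := ⟨σ, s.le σ.2⟩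

theorem at_mul (j : ι) (σ : s.N) (γ : s.Gam) :
    s.at' j (s.toGam σ * γ) = s.actHom j σ (s.at' j γ) := by
  unfold at'
  rw [map_mul]
  rfl

/-- the mean over the orbit is the mean over the Galois group -/
theorem mean_eq (Φ : (∀ j, Y j) → ℝ) : s.mean Φ = avg s.Gam (fun γ => Φ (s.point γ)) := by
  classical
  have : Fintype s.Gam := Fintype.ofFinite _
  rw [avg_eq]
  unfold mean orbit
  have hset : Set.range s.point = ((univ.image s.point : Finset (∀ j, Y j)) : Set (∀ j, Y j)) := by
    simp
  rw [hset, finsum_mem_coe_finset, Set.ncard_coe_finset]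
  have hfib : ∀ y ∈ (univ.image s.point : Finset (∀ j, Y j)),
      #{γ ∈ (univ : Finset s.Gam) | s.point γ = y} =
        #{γ ∈ (univ : Finset s.Gam) | s.point γ = s.point 1} := by
    intro y hy
    obtain ⟨γ0, -, rfl⟩ := mem_image.1 hy
    refine (card_bij (fun γ _ => γ0 * γ) ?_ ?_ ?_).symm
    · intro γ hγ
      simp only [mem_filter, mem_univ, true_and] at hγ ⊢
      funext j
      have h := congrFun hγ j
      have h2 : s.at' j γ = s.at' j 1 := s.inj j h
      unfold point
      congr 1
      unfold at' at h2 ⊢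
      rw [map_mul, Equiv.Perm.mul_apply, h2, map_one, Equiv.Perm.one_apply]
    · intro a _ b _ h
      exact mul_left_cancel h
    · intro γ hγ
      simp only [mem_filter, mem_univ, true_and] at hγ
      refine ⟨γ0⁻¹ * γ, ?_, by simp⟩
      simp only [mem_filter, mem_univ, true_and]
      funext j
      have h := congrFun hγ j
      have h2 : s.at' j γ = s.at' j γ0 := s.inj j h
      unfold point
      congr 1
      unfold at' at h2 ⊢
      rw [map_mul, Equiv.Perm.mul_apply, h2, map_one, Equiv.Perm.one_apply, map_inv]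
      simp
  set K := #{γ ∈ (univ : Finset s.Gam) | s.point γ = s.point 1} with hK
  have hKpos : 0 < K := card_pos.2 ⟨1, by simp⟩
  have h1 : ∑ γ : s.Gam, Φ (s.point γ) = (K : ℝ) * ∑ y ∈ univ.image s.point, Φ y := by
    rw [sum_comp Φ s.point, mul_sum]
    refine sum_congr rfl fun y hy => ?_
    rw [hfib y hy, nsmul_eq_mul]
  have h2 : (Fintype.card s.Gam : ℝ) = (K : ℝ) * #(univ.image s.point) := by
    rw [← card_univ, card_eq_sum_card_image s.point, sum_congr rfl hfib, sum_const, smul_eq_mul]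
    push_cast
    ring
  rw [h1, h2, mul_div_mul_left _ _ (by exact_mod_cast hKpos.ne')]

/-- the error of the equidistribution of the cosets of `U` in the `N`-orbit of `z`, on average over the
cosets -/
noncomputable def err (U : Subgroup s.N) (j : ι) (f : s.O j → ℝ) (z : s.O j) : ℝ :=
  avg s.N (fun g => |avg U (fun u => f (s.actHom j ((u : s.N) * g) z))|)

/-- **Decoupling.** -/
theorem decouple [DecidableEq ι] (U : Subgroup s.N) (j : ι)
    (hU : ∀ v ∈ U, ∃ σ ∈ s.sep j, s.actHom j σ = s.actHom j v)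
    (f : s.O j → ℝ) (R : (∀ k, s.O k) → ℝ) {b e : ℝ}
    (hR : ∀ z z' : ∀ k, s.O k, (∀ k, k ≠ j → z k = z' k) → R z = R z')
    (hb : ∀ z, |R z| ≤ b)
    (he : ∀ γ, s.err U j f (s.at' j γ) ≤ e) :
    |avg s.Gam (fun γ => f (s.at' j γ) * R (fun k => s.at' k γ))| ≤ b * e := by
  classical
  have hb0 : 0 ≤ b := (abs_nonneg _).trans (hb s.x)
  -- average over `N` first
  have h1 : avg s.Gam (fun γ => f (s.at' j γ) * R (fun k => s.at' k γ)) =
      avg s.Gam (fun γ => avg s.N (fun n => f (s.actHom j n (s.at' j γ)) *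
        R (fun k => s.actHom k n (s.at' k γ)))) := by
    rw [avg_comm]
    have : ∀ n : s.N, avg s.Gam (fun γ => f (s.actHom j n (s.at' j γ)) *
        R (fun k => s.actHom k n (s.at' k γ))) =
        avg s.Gam (fun γ => f (s.at' j γ) * R (fun k => s.at' k γ)) := by
      intro n
      rw [← avg_equiv (Equiv.mulLeft (s.toGam n))
        (fun γ => f (s.at' j γ) * R (fun k => s.at' k γ))]
      congr 1
      funext γ
      simp only [Equiv.coe_mulLeft, at_mul]
    simp only [this]
    rw [avg_const]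
  rw [h1]
  refine (abs_avg_le _).trans (avg_le fun γ => ?_)
  -- now the inner mean
  have h2 : ∀ u : U, avg s.N (fun n => f (s.actHom j n (s.at' j γ)) *
        R (fun k => s.actHom k n (s.at' k γ))) =
      avg s.N (fun n => f (s.actHom j ((u : s.N) * n) (s.at' j γ)) *
        R (fun k => s.actHom k n (s.at' k γ))) := by
    intro u
    obtain ⟨σ, hσ, hσu⟩ := hU u u.2
    rw [← avg_equiv (Equiv.mulLeft σ) (fun n => f (s.actHom j n (s.at' j γ)) *
        R (fun k => s.actHom k n (s.at' k γ)))]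
    congr 1
    funext n
    simp only [Equiv.coe_mulLeft]
    congr 1
    · rw [map_mul, map_mul, hσu]
    · refine hR _ _ fun k hk => ?_
      rw [map_mul, s.mem_sep.1 hσ k hk, one_mul]
  have h3 : avg s.N (fun n => f (s.actHom j n (s.at' j γ)) *
        R (fun k => s.actHom k n (s.at' k γ))) =
      avg s.N (fun n => avg U (fun u => f (s.actHom j ((u : s.N) * n) (s.at' j γ))) *
        R (fun k => s.actHom k n (s.at' k γ))) := by
    have h4 : avg U (fun u => avg s.N (fun n => f (s.actHom j ((u : s.N) * n) (s.at' j γ)) *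
        R (fun k => s.actHom k n (s.at' k γ)))) =
        avg s.N (fun n => f (s.actHom j n (s.at' j γ)) *
        R (fun k => s.actHom k n (s.at' k γ))) := by
      simp only [← h2]
      rw [avg_const]
    rw [← h4, avg_comm]
    simp only [avg_mul_right]
  rw [h3]
  refine (abs_avg_le _).trans ?_
  refine (avg_mono (g := fun n => |avg U (fun u => f (s.actHom j ((u : s.N) * n) (s.at' j γ)))| * b)
    fun n => ?_).trans ?_
  · rw [abs_mul]
    gcongr
    exact hb _
  · rw [avg_mul_right, mul_comm]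
    gcongr
    exact he γ

/-- **Product functions.** -/
theorem product_bound [Fintype ι] [DecidableEq ι] (U : ι → Subgroup s.N)
    (hU : ∀ j, ∀ v ∈ U j, ∃ σ ∈ s.sep j, s.actHom j σ = s.actHom j v)
    (f : ∀ j, s.O j → ℝ) (c b e : ι → ℝ)
    (hb1 : ∀ j, 1 ≤ b j) (hf : ∀ j z, |f j z| ≤ b j) (hc : ∀ j, |c j| ≤ b j)
    (he0 : ∀ j, 0 ≤ e j)
    (he : ∀ j γ, s.err (U j) j (fun z => f j z - c j) (s.at' j γ) ≤ e j) (S : Finset ι) :
    |avg s.Gam (fun γ => ∏ j ∈ S, f j (s.at' j γ)) - ∏ j ∈ S, c j| ≤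
      (∏ j ∈ S, b j) * ∑ j ∈ S, e j := by
  induction S using Finset.induction_on with
  | empty => simp [avg_const]
  | @insert a S ha ih =>
    have hb0 : ∀ j, 0 ≤ b j := fun j => zero_le_one.trans (hb1 j)
    have hP : 0 ≤ ∏ j ∈ S, b j := prod_nonneg fun j _ => hb0 j
    have hE : 0 ≤ ∑ j ∈ S, e j := sum_nonneg fun j _ => he0 j
    have h1 : avg s.Gam (fun γ => ∏ j ∈ insert a S, f j (s.at' j γ)) - ∏ j ∈ insert a S, c j =
        c a * (avg s.Gam (fun γ => ∏ j ∈ S, f j (s.at' j γ)) - ∏ j ∈ S, c j) +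
        avg s.Gam (fun γ => (f a (s.at' a γ) - c a) * ∏ j ∈ S, f j (s.at' j γ)) := by
      rw [prod_insert ha, mul_sub, ← avg_mul_left]
      have : ∀ γ, ∏ j ∈ insert a S, f j (s.at' j γ) =
          c a * ∏ j ∈ S, f j (s.at' j γ) + (f a (s.at' a γ) - c a) * ∏ j ∈ S, f j (s.at' j γ) := by
        intro γ
        rw [prod_insert ha]
        ring
      simp only [this]
      rw [avg_add]
      ring
    have h2 : |avg s.Gam (fun γ => (f a (s.at' a γ) - c a) * ∏ j ∈ S, f j (s.at' j γ))| ≤
        (∏ j ∈ S, b j) * e a := by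
      refine s.decouple (U a) a (hU a) (fun z => f a z - c a) (fun z => ∏ j ∈ S, f j (z j)) ?_ ?_ (he a)
      · intro z z' h
        refine prod_congr rfl fun k hk => ?_
        rw [h k (fun h' => ha (h' ▸ hk))]
      · intro z
        rw [abs_prod]
        exact prod_le_prod (fun _ _ => abs_nonneg _) fun k _ => hf k _
    rw [h1, prod_insert ha, sum_insert ha]
    calc |c a * (avg s.Gam (fun γ => ∏ j ∈ S, f j (s.at' j γ)) - ∏ j ∈ S, c j) +
        avg s.Gam (fun γ => (f a (s.at' a γ) - c a) * ∏ j ∈ S, f j (s.at' j γ))|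
        ≤ |c a| * |avg s.Gam (fun γ => ∏ j ∈ S, f j (s.at' j γ)) - ∏ j ∈ S, c j| +
          (∏ j ∈ S, b j) * e a := by
          refine (abs_add_le _ _).trans ?_
          rw [abs_mul]
          gcongr
      _ ≤ b a * ((∏ j ∈ S, b j) * ∑ j ∈ S, e j) + b a * ((∏ j ∈ S, b j) * e a) := by
          have h3 : (∏ j ∈ S, b j) * e a ≤ b a * ((∏ j ∈ S, b j) * e a) :=
            le_mul_of_one_le_left (mul_nonneg hP (he0 a)) (hb1 a)
          have h4 := mul_le_mul (hc a) ih (abs_nonneg _) (hb0 a)
          linarith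
      _ = b a * (∏ j ∈ S, b j) * (e a + ∑ j ∈ S, e j) := by ring

end SpecialPoint

end Pool.Agent.N210.EQ
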