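import Mathlib

/-!
# Galois orbits of special points: separating the coordinates
-/

namespace Pool.Agent.N210.EQ

open Finset

/-- Galois data of a special point `x = (x_j)` of a product of varieties `Y_j` over a number field `F`:
`G = Gal(L/Q)`, `Gam = Gal(L/F)`, `N = Gal(L/M)` for finite Galois extensions `M`, `L` of `Q`, `F ⊆ M ⊆ L`;
`O j` is the orbit of the `j`-th coordinate under `Gam`, `pt j` its inclusion in `Y_j`, `rho j` the
Galois action, `x j` the coordinate itself, `chi j` the quadratic character of the CM field `K_j`. -/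
structure SpecialPoint (ι : Type) (Y : ι → Type) where
  G : Type
  [grp : Group G]
  [fin : Fintype G]
  Gam : Subgroup G
  N : Subgroup G
  normal : N.Normal
  le : N ≤ Gam
  O : ι → Type
  rho : ∀ j, Gam →* Equiv.Perm (O j)
  pt : ∀ j, O j → Y j
  inj : ∀ j, Function.Injective (pt j)
  x : ∀ j, O j
  chi : ι → G →* ℤˣ
  conj : ∀ j (g σ : G) (hσ : σ ∈ N),
    rho j ⟨g * σ * g⁻¹, le (normal.conj_mem σ hσ g)⟩ = (rho j ⟨σ, le hσ⟩) ^ ((chi j g : ℤˣ) : ℤ)

attribute [instance] SpecialPoint.grp SpecialPoint.fin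

variable {ι : Type} {Y : ι → Type}

namespace SpecialPoint

variable (s : SpecialPoint ι Y)

/-- the action of an element of `N` on `O j` -/
def act (j : ι) (σ : s.N) : Equiv.Perm (s.O j) := s.rho j ⟨σ, s.le σ.2⟩

theorem act_mul (j : ι) (a b : s.N) : s.act j (a * b) = s.act j a * s.act j b := by
  unfold act
  rw [← map_mul]
  rfl

theorem act_one (j : ι) : s.act j 1 = 1 := by
  unfold act
  have : (⟨((1 : s.N) : s.G), s.le (1 : s.N).2⟩ : s.Gam) = 1 := rfl
  rw [this, map_one]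

/-- the action as a homomorphism -/
def actHom (j : ι) : s.N →* Equiv.Perm (s.O j) where
  toFun := s.act j
  map_one' := s.act_one j
  map_mul' := s.act_mul j

/-- conjugation on `N` -/
def cj (g : s.G) (σ : s.N) : s.N := ⟨g * σ * g⁻¹, s.normal.conj_mem σ σ.2 g⟩

theorem act_cj (j : ι) (g : s.G) (σ : s.N) :
    s.actHom j (s.cj g σ) = (s.actHom j σ) ^ ((s.chi j g : ℤˣ) : ℤ) :=
  s.conj j g σ σ.2

/-- elements of `N` which move only the coordinate `j` -/
def sep (j : ι) : Subgroup s.N := ⨅ k : {k : ι // k ≠ j}, (s.actHom k).ker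

theorem mem_sep {j : ι} {σ : s.N} : σ ∈ s.sep j ↔ ∀ k, k ≠ j → s.actHom k σ = 1 := by
  unfold sep
  simp [Subgroup.mem_iInf, MonoidHom.mem_ker]

/-- the subgroup of `N` generated by the `m`-th powers -/
def pow (m : ℕ) : Subgroup s.N := Subgroup.closure {h | ∃ u : s.N, h = u ^ m}

/-- Some element of `G` distinguishes `chi j` from at least half of the other characters. -/
theorem half (j : ι) (S : Finset ι) (hχ : ∀ k ∈ S, s.chi k ≠ s.chi j) :
    ∃ g : s.G, 2 * #{k ∈ S | s.chi k g = s.chi j g} ≤ #S := by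
  classical
  -- the sum over `g` of `chi k g * chi j g` vanishes
  have hsum : ∀ k ∈ S, ∑ g : s.G, (((s.chi k g * s.chi j g : ℤˣ)) : ℤ) = 0 := by
    intro k hk
    obtain ⟨h, hh⟩ : ∃ h, s.chi k h ≠ s.chi j h := by
      by_contra hcon
      push_neg at hcon
      exact hχ k hk (MonoidHom.ext hcon)
    have h1 : ((s.chi k h * s.chi j h : ℤˣ) : ℤ) = -1 := by
      rcases Int.units_eq_one_or (s.chi k h) with h' | h' <;>
        rcases Int.units_eq_one_or (s.chi j h) with h'' | h'' <;> simp_all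
    have h2 : ∑ g : s.G, (((s.chi k g * s.chi j g : ℤˣ)) : ℤ) =
        ∑ g : s.G, (((s.chi k (h * g) * s.chi j (h * g) : ℤˣ)) : ℤ) :=
      (Equiv.sum_comp (Equiv.mulLeft h) (fun g => ((s.chi k g * s.chi j g : ℤˣ) : ℤ))).symm
    have h3 : ∀ g : s.G, ((s.chi k (h * g) * s.chi j (h * g) : ℤˣ) : ℤ) =
        -((s.chi k g * s.chi j g : ℤˣ) : ℤ) := by
      intro g
      rw [map_mul, map_mul, mul_mul_mul_comm, Units.val_mul, h1]
      ring
    rw [sum_congr rfl fun g _ => h3 g, sum_neg_distrib] at h2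
    linarith
  have htot : ∑ g : s.G, ∑ k ∈ S, (((s.chi k g * s.chi j g : ℤˣ)) : ℤ) = 0 := by
    rw [sum_comm]
    exact sum_eq_zero hsum
  obtain ⟨g, -, hg⟩ : ∃ g ∈ (univ : Finset s.G),
      ∑ k ∈ S, (((s.chi k g * s.chi j g : ℤˣ)) : ℤ) ≤ 0 := by
    by_contra hcon
    push_neg at hcon
    have := sum_pos hcon ⟨1, mem_univ 1⟩
    omega
  refine ⟨g, ?_⟩
  have h4 : ∀ k ∈ S, (((s.chi k g * s.chi j g : ℤˣ)) : ℤ) =
      2 * (if s.chi k g = s.chi j g then 1 else 0) - 1 := by
    intro k _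
    rcases Int.units_eq_one_or (s.chi k g) with h' | h' <;>
      rcases Int.units_eq_one_or (s.chi j g) with h'' | h'' <;> simp [h', h'']
  rw [sum_congr rfl h4, sum_sub_distrib, ← mul_sum] at hg
  simp only [sum_const, nsmul_eq_mul, mul_one] at hg
  rw [card_filter]
  push_cast at hg ⊢
  have h5 : ((∑ k ∈ S, if s.chi k g = s.chi j g then 1 else 0 : ℕ) : ℤ) =
      ∑ k ∈ S, if s.chi k g = s.chi j g then (1 : ℤ) else 0 := by push_cast; rfl
  omega

/-- One step: if `|S| < 2^r`, an element trivial on the coordinates in `S` and acting on `j` as the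
`2^r`-th power. -/
theorem step (j : ι) (u : s.N) (r : ℕ) : ∀ S : Finset ι, (∀ k ∈ S, s.chi k ≠ s.chi j) →
    #S < 2 ^ r →
    ∃ σ : s.N, s.actHom j σ = (s.actHom j u) ^ (2 ^ r) ∧ ∀ k ∈ S, s.actHom k σ = 1 := by
  classical
  induction r with
  | zero =>
    intro S _ hS
    have : S = ∅ := by
      rw [← card_eq_zero]
      simpa using hS
    subst this
    exact ⟨u, by simp, by simp⟩
  | succ r ih =>
    intro S hχ hS
    obtain ⟨g, hg⟩ := s.half j S hχ
    obtain ⟨σ, h1, h2⟩ := ih {k ∈ S | s.chi k g = s.chi j g}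
      (fun k hk => hχ k (mem_filter.1 hk).1) (by rw [pow_succ] at hS; omega)
    have hsq : ((s.chi j g : ℤˣ) : ℤ) * ((s.chi j g : ℤˣ) : ℤ) = 1 := by
      rcases Int.units_eq_one_or (s.chi j g) with h' | h' <;> simp [h']
    refine ⟨(s.cj g σ * σ ^ ((s.chi j g : ℤˣ) : ℤ)) ^ ((s.chi j g : ℤˣ) : ℤ), ?_, ?_⟩
    · rw [map_zpow, map_mul, map_zpow, act_cj, ← zpow_add, ← zpow_mul]
      have : (((s.chi j g : ℤˣ) : ℤ) + ((s.chi j g : ℤˣ) : ℤ)) * ((s.chi j g : ℤˣ) : ℤ) = 2 := by
        rw [add_mul, hsq]; norm_num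
      rw [this, h1, pow_succ, pow_mul]
      norm_cast
    · intro k hk
      by_cases hkg : s.chi k g = s.chi j g
      · rw [map_zpow, map_mul, map_zpow, act_cj, h2 k (mem_filter.2 ⟨hk, hkg⟩)]
        simp
      · have hprod : ((s.chi k g : ℤˣ) : ℤ) = -((s.chi j g : ℤˣ) : ℤ) := by
          rcases Int.units_eq_one_or (s.chi k g) with h | h <;>
            rcases Int.units_eq_one_or (s.chi j g) with h' | h' <;> simp_all
        rw [map_zpow, map_mul, map_zpow, act_cj, ← zpow_add, hprod]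
        simp

/-- **Separation.** If the quadratic characters are pairwise distinct and `n ≤ 2^r`, every element of the
group generated by the `2^r`-th powers of `N` acts on the coordinate `j` like an element of `N` which
moves only this coordinate. -/
theorem separation [Fintype ι] (j : ι) (hχ : ∀ k, k ≠ j → s.chi k ≠ s.chi j) {r : ℕ}
    (hr : Fintype.card ι ≤ 2 ^ r) (v : s.N) (hv : v ∈ s.pow (2 ^ r)) :
    ∃ σ ∈ s.sep j, s.actHom j σ = s.actHom j v := by
  classical
  induction hv using Subgroup.closure_induction with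
  | mem x hx =>
    obtain ⟨u, rfl⟩ := hx
    have hpos : 0 < Fintype.card ι := Fintype.card_pos_iff.2 ⟨j⟩
    obtain ⟨σ, h1, h2⟩ := s.step j u r (univ.erase j) (fun k hk => hχ k (mem_erase.1 hk).1)
      (by rw [card_erase_of_mem (mem_univ j), card_univ]; omega)
    refine ⟨σ, s.mem_sep.2 fun k hk => h2 k (mem_erase.2 ⟨hk, mem_univ k⟩), ?_⟩
    rw [h1, map_pow]
  | one => exact ⟨1, one_mem _, rfl⟩
  | mul a b _ _ iha ihb =>
    obtain ⟨σ, h1, h2⟩ := iha
    obtain ⟨τ, h3, h4⟩ := ihb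
    exact ⟨σ * τ, mul_mem h1 h3, by rw [map_mul, map_mul, h2, h4]⟩
  | inv a _ ih =>
    obtain ⟨σ, h1, h2⟩ := ih
    exact ⟨σ⁻¹, inv_mem h1, by rw [map_inv, map_inv, h2]⟩

end SpecialPoint

end Pool.Agent.N210.EQ
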