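import Mathlib

/-!
# Compactly supported functions on a product of locally compact spaces are uniform limits of sums of
products
-/

namespace Pool.Agent.N210.EQ

open Finset

variable {ι : Type} [Fintype ι] {Y : ι → Type} [∀ j, TopologicalSpace (Y j)]

/-- products of compactly supported continuous functions of the coordinates -/
def Prods (Y : ι → Type) [∀ j, TopologicalSpace (Y j)] : Set ((∀ j, Y j) → ℝ) :=
  {Φ | ∃ φ : ∀ j, Y j → ℝ, (∀ j, Continuous (φ j)) ∧ (∀ j, HasCompactSupport (φ j)) ∧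
    Φ = fun y => ∏ j, φ j (y j)}

/-- their linear combinations -/
def Tens (Y : ι → Type) [∀ j, TopologicalSpace (Y j)] : Submodule ℝ ((∀ j, Y j) → ℝ) :=
  Submodule.span ℝ (Prods Y)

theorem Prods_mul {Φ Ψ : (∀ j, Y j) → ℝ} (h : Φ ∈ Prods Y) (h' : Ψ ∈ Prods Y) : Φ * Ψ ∈ Prods Y := by
  obtain ⟨φ, h1, h2, rfl⟩ := h
  obtain ⟨ψ, h3, h4, rfl⟩ := h'
  refine ⟨fun j => φ j * ψ j, fun j => (h1 j).mul (h3 j), fun j => (h2 j).mul_right, ?_⟩
  funext y
  simp [prod_mul_distrib]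

theorem Tens_mul {Φ Ψ : (∀ j, Y j) → ℝ} (h : Φ ∈ Tens Y) (h' : Ψ ∈ Tens Y) : Φ * Ψ ∈ Tens Y := by
  have h1 := Submodule.mul_mem_mul h h'
  unfold Tens at h1 ⊢
  rw [Submodule.span_mul_span] at h1
  refine Submodule.span_mono ?_ h1
  rintro _ ⟨a, ha, b, hb, rfl⟩
  exact Prods_mul ha hb

theorem dense [∀ j, T2Space (Y j)] [∀ j, LocallyCompactSpace (Y j)] (Φ : (∀ j, Y j) → ℝ)
    (hc : Continuous Φ) (hs : HasCompactSupport Φ) {ε : ℝ} (hε : 0 < ε) :
    ∃ Ψ ∈ Tens Y, ∀ y, |Φ y - Ψ y| ≤ ε := by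
  classical
  set K : ∀ j, Set (Y j) := fun j => (fun y : ∀ j, Y j => y j) '' tsupport Φ with hK
  have hKc : ∀ j, IsCompact (K j) := fun j => hs.isCompact.image (continuous_apply j)
  choose L hL hKL using fun j => exists_compact_superset (hKc j)
  have hθ : ∀ j, ∃ f : C(Y j, ℝ), Set.EqOn f 1 (K j) ∧ Set.EqOn f 0 (interior (L j))ᶜ ∧
      HasCompactSupport f ∧ ∀ x, f x ∈ Set.Icc (0 : ℝ) 1 := fun j =>
    exists_continuous_one_zero_of_isCompact (hKc j) isOpen_interior.isClosed_compl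
      (Set.disjoint_compl_right_iff_subset.2 (hKL j))
  have hψ : ∀ j, ∃ f : C(Y j, ℝ), Set.EqOn f 1 (L j) ∧ Set.EqOn f 0 (∅ : Set (Y j)) ∧
      HasCompactSupport f ∧ ∀ x, f x ∈ Set.Icc (0 : ℝ) 1 := fun j =>
    exists_continuous_one_zero_of_isCompact (hL j) isClosed_empty (Set.disjoint_empty _)
  choose θ hθ1 hθ0 hθc hθI using hθ
  choose ψ hψ1 _ hψc hψI using hψ
  set C : Set (∀ j, Y j) := Set.univ.pi L with hC
  have hCc : IsCompact C := isCompact_univ_pi hL
  have : CompactSpace C := isCompact_iff_compactSpace.1 hCc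
  set Sg : Set C(C, ℝ) := {f | ∃ Ψ ∈ Prods Y, ∀ y : C, f y = Ψ y.1} with hSg
  -- elements of the algebra come from `Tens`
  have hadj : ∀ f ∈ Algebra.adjoin ℝ Sg, ∃ Ψ ∈ Tens Y, ∀ y : C, f y = Ψ y.1 := by
    intro f hf
    induction hf using Algebra.adjoin_induction with
    | mem x hx =>
      obtain ⟨Ψ, h1, h2⟩ := hx
      exact ⟨Ψ, Submodule.subset_span h1, h2⟩
    | algebraMap r =>
      refine ⟨r • (fun y => ∏ j, ψ j (y j)), Submodule.smul_mem _ _ (Submodule.subset_span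
        ⟨fun j => ψ j, fun j => (ψ j).continuous, hψc, rfl⟩), fun y => ?_⟩
      have : ∏ j, ψ j (y.1 j) = 1 := prod_eq_one fun j _ => hψ1 j (y.2 j (Set.mem_univ j))
      simp [this]
    | add a b _ _ iha ihb =>
      obtain ⟨Ψ, h1, h2⟩ := iha
      obtain ⟨Ψ', h3, h4⟩ := ihb
      exact ⟨Ψ + Ψ', add_mem h1 h3, fun y => by simp [h2, h4]⟩
    | mul a b _ _ iha ihb =>
      obtain ⟨Ψ, h1, h2⟩ := iha
      obtain ⟨Ψ', h3, h4⟩ := ihb
      exact ⟨Ψ * Ψ', Tens_mul h1 h3, fun y => by simp [h2, h4]⟩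
  -- they separate points
  have hsep : (Algebra.adjoin ℝ Sg).SeparatesPoints := by
    intro y y' hne
    obtain ⟨j, hj⟩ : ∃ j, y.1 j ≠ y'.1 j := by
      by_contra hcon
      push_neg at hcon
      exact hne (Subtype.ext (funext hcon))
    obtain ⟨f, hf1, hf0, hfc, -⟩ := exists_continuous_one_zero_of_isCompact
      (isCompact_singleton (x := y.1 j)) (isClosed_singleton (x := y'.1 j))
      (Set.disjoint_singleton.2 hj)
    set φ : ∀ k, C(Y k, ℝ) := Function.update ψ j f with hφ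
    have hφj : φ j = f := by simp [hφ]
    have hφk : ∀ k, k ≠ j → φ k = ψ k := fun k hk => by simp [hφ, hk]
    have hφc : ∀ k, HasCompactSupport (φ k) := by
      intro k
      by_cases hk : k = j
      · subst hk
        rw [hφj]
        exact hfc
      · rw [hφk k hk]
        exact hψc k
    let g : C(C, ℝ) := ⟨fun y => ∏ k, φ k (y.1 k), continuous_finset_prod _ fun k _ =>
      (φ k).continuous.comp ((continuous_apply k).comp continuous_subtype_val)⟩
    have hg : g ∈ Algebra.adjoin ℝ Sg := Algebra.subset_adjoin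
      ⟨fun y => ∏ k, φ k (y k), ⟨fun k => φ k, fun k => (φ k).continuous, hφc, rfl⟩, fun y => rfl⟩
    refine ⟨g, ⟨g, hg, rfl⟩, ?_⟩
    have h1 : g y = 1 := by
      refine prod_eq_one fun k _ => ?_
      by_cases hk : k = j
      · subst hk
        rw [hφj]
        exact hf1 rfl
      · rw [hφk k hk]
        exact hψ1 k (y.2 k (Set.mem_univ k))
    have h0 : g y' = 0 := by
      refine prod_eq_zero (mem_univ j) ?_
      rw [hφj]
      exact hf0 rfl
    rw [h1, h0]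
    exact one_ne_zero
  -- approximation on `C`
  let Φc : C(C, ℝ) := ⟨fun y => Φ y.1, hc.comp continuous_subtype_val⟩
  obtain ⟨⟨g, hg⟩, hgε⟩ := ContinuousMap.exists_mem_subalgebra_near_continuousMap_of_separatesPoints
    (Algebra.adjoin ℝ Sg) hsep Φc ε hε
  obtain ⟨Ψ, hΨ, hΨg⟩ := hadj g hg
  have hon : ∀ y ∈ C, |Φ y - Ψ y| ≤ ε := by
    intro y hy
    have h1 := (ContinuousMap.norm_coe_le_norm (g - Φc) ⟨y, hy⟩).trans hgε.le
    rw [ContinuousMap.sub_apply, hΨg ⟨y, hy⟩, Real.norm_eq_abs, abs_sub_comm] at h1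
    exact h1
  have hΘmem : (fun y : ∀ j, Y j => ∏ j, θ j (y j)) ∈ Tens Y := Submodule.subset_span
    ⟨fun j => θ j, fun j => (θ j).continuous, hθc, rfl⟩
  refine ⟨Ψ * fun y => ∏ j, θ j (y j), Tens_mul hΨ hΘmem, fun y => ?_⟩
  rw [Pi.mul_apply]
  have hΘ0 : 0 ≤ ∏ j, θ j (y j) := prod_nonneg fun j _ => (hθI j _).1
  have hΘ1 : ∏ j, θ j (y j) ≤ 1 := prod_le_one (fun j _ => (hθI j _).1) fun j _ => (hθI j _).2
  have hΦΘ : Φ y = Φ y * ∏ j, θ j (y j) := by
    by_cases hy : y ∈ tsupport Φ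
    · have : ∏ j, θ j (y j) = 1 := prod_eq_one fun j _ => hθ1 j ⟨y, hy, rfl⟩
      rw [this, mul_one]
    · rw [image_eq_zero_of_notMem_tsupport hy, zero_mul]
  by_cases hy : y ∈ C
  · rw [hΦΘ, ← sub_mul, abs_mul, abs_of_nonneg hΘ0]
    exact (mul_le_of_le_one_right (abs_nonneg _) hΘ1).trans (hon y hy)
  · have hΘ : ∏ j, θ j (y j) = 0 := by
      have : ∃ j, y j ∉ L j := by
        by_contra hcon
        push_neg at hcon
        exact hy fun j _ => hcon j
      obtain ⟨j, hj⟩ := this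
      exact prod_eq_zero (mem_univ j) (hθ0 j fun h => hj (interior_subset h))
    rw [hΦΘ, hΘ]
    simp [hε.le]

end Pool.Agent.N210.EQ
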