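import Pool.Agent.N210.EQ.Avg
import Pool.Agent.N210.EQ.Dense

/-!
# Joint equidistribution of Galois orbits of special points
-/

namespace Pool.Agent.N210.EQ

open Finset MeasureTheory Filter Topology

variable {ι : Type} {Y : ι → Type}

namespace SpecialPoint

variable (s : SpecialPoint ι Y)

theorem mean_add (Φ Ψ : (∀ j, Y j) → ℝ) : s.mean (Φ + Ψ) = s.mean Φ + s.mean Ψ := by
  rw [mean_eq, mean_eq, mean_eq, ← avg_add]
  rfl

theorem mean_smul (c : ℝ) (Φ : (∀ j, Y j) → ℝ) : s.mean (c • Φ) = c * s.mean Φ := by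
  rw [mean_eq, mean_eq, ← avg_mul_left]
  rfl

theorem abs_mean_sub_le {Φ Ψ : (∀ j, Y j) → ℝ} {ε : ℝ} (h : ∀ y, |Φ y - Ψ y| ≤ ε) :
    |s.mean Φ - s.mean Ψ| ≤ ε := by
  rw [mean_eq, mean_eq, ← avg_sub]
  exact (abs_avg_le _).trans (avg_le fun γ => h _)

/-- **Galois orbits contain products.** If all coordinates are separated on `U`, arbitrary elements of
`U j` can be realised simultaneously in the coordinates. -/
theorem realise [Fintype ι] (U : ι → Subgroup s.N)
    (hU : ∀ j, ∀ v ∈ U j, ∃ σ ∈ s.sep j, s.actHom j σ = s.actHom j v)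
    (v : ∀ j, s.N) (hv : ∀ j, v j ∈ U j) :
    ∃ σ : s.N, ∀ j, s.actHom j σ = s.actHom j (v j) := by
  classical
  suffices h : ∀ S : Finset ι, ∃ σ : s.N, (∀ j ∈ S, s.actHom j σ = s.actHom j (v j)) ∧
      ∀ j ∉ S, s.actHom j σ = 1 by
    obtain ⟨σ, h1, -⟩ := h univ
    exact ⟨σ, fun j => h1 j (mem_univ j)⟩
  intro S
  induction S using Finset.induction_on with
  | empty => exact ⟨1, by simp, fun j _ => map_one _⟩
  | @insert a S ha ih =>
    obtain ⟨σ, h1, h2⟩ := ih
    obtain ⟨τ, h3, h4⟩ := hU a (v a) (hv a)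
    rw [mem_sep] at h3
    refine ⟨σ * τ, fun j hj => ?_, fun j hj => ?_⟩
    · rcases mem_insert.1 hj with rfl | hj
      · rw [map_mul, h2 j ha, h4, one_mul]
      · have : j ≠ a := fun h => ha (h ▸ hj)
        rw [map_mul, h1 j hj, h3 j this, mul_one]
    · rw [mem_insert, not_or] at hj
      rw [map_mul, h2 j hj.2, h3 j hj.1, one_mul]

end SpecialPoint

/-- **Equidistribution in one variable, on average over cosets**: for each coordinate `j` and each
continuous compactly supported `φ` on `Y j`, the mean over `g` in `N` of the absolute value of the error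
(mean of `φ` over the `U`-orbit of `g z`) `- ∫ φ` tends to `0`, for every `z` in the Galois orbit of the
`j`-th coordinate of the `i`-th point. -/
def OneVariable [∀ j, TopologicalSpace (Y j)] [∀ j, MeasurableSpace (Y j)]
    (m : ∀ j, Measure (Y j)) (s : ℕ → SpecialPoint ι Y) (U : ∀ i, ι → Subgroup (s i).N) : Prop :=
  ∀ j (φ : Y j → ℝ), Continuous φ → HasCompactSupport φ → ∀ ε > 0, ∀ᶠ i in atTop,
    ∀ γ : (s i).Gam, (s i).err (U i j) j (fun z => φ ((s i).pt j z) - ∫ y, φ y ∂(m j))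
      ((s i).at' j γ) ≤ ε

section

variable [Fintype ι] [∀ j, TopologicalSpace (Y j)] [∀ j, MeasurableSpace (Y j)]
  [∀ j, BorelSpace (Y j)]

theorem integrable_of [∀ j, SecondCountableTopology (Y j)] (m : ∀ j, Measure (Y j))
    [∀ j, IsProbabilityMeasure (m j)] {φ : ∀ j, Y j → ℝ} (hφ : ∀ j, Continuous (φ j))
    (hs : ∀ j, HasCompactSupport (φ j)) :
    Integrable (fun y : ∀ j, Y j => ∏ j, φ j (y j)) (Measure.pi m) := by
  refine Integrable.fintype_prod_dep fun j => ?_
  exact (hφ j).integrable_of_hasCompactSupport (hs j)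

theorem tendsto_product [∀ j, SecondCountableTopology (Y j)] (m : ∀ j, Measure (Y j))
    [∀ j, IsProbabilityMeasure (m j)]
    (s : ℕ → SpecialPoint ι Y) (U : ∀ i, ι → Subgroup (s i).N)
    (hU : ∀ i j, ∀ v ∈ U i j, ∃ σ ∈ (s i).sep j, (s i).actHom j σ = (s i).actHom j v)
    (h1 : OneVariable m s U) {φ : ∀ j, Y j → ℝ} (hφ : ∀ j, Continuous (φ j))
    (hs : ∀ j, HasCompactSupport (φ j)) :
    Tendsto (fun i => (s i).mean (fun y => ∏ j, φ j (y j))) atTop
      (𝓝 (∫ y, ∏ j, φ j (y j) ∂(Measure.pi m))) := by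
  classical
  rw [integral_fintype_prod_eq_prod]
  choose B hB using fun j => (hφ j).bounded_above_of_compact_support (hs j)
  set b : ι → ℝ := fun j => max 1 (B j) with hb
  have hb1 : ∀ j, 1 ≤ b j := fun j => le_max_left _ _
  have hfb : ∀ j y, |φ j y| ≤ b j := fun j y => (hB j y).trans (le_max_right _ _)
  have hcb : ∀ j, |∫ y, φ j y ∂(m j)| ≤ b j := by
    intro j
    have := norm_integral_le_of_norm_le_const (μ := m j) (f := φ j) (C := b j)
      (Eventually.of_forall fun y => hfb j y)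
    simpa using this
  have hP : 0 < ∏ j, b j := prod_pos fun j _ => zero_lt_one.trans_le (hb1 j)
  rw [Metric.tendsto_atTop]
  intro ε hε
  set δ : ℝ := ε / (2 * ((∏ j, b j) * (Fintype.card ι + 1))) with hδ
  have hδpos : 0 < δ := by positivity
  have hev : ∀ᶠ i in atTop, ∀ j, ∀ γ : (s i).Gam,
      (s i).err (U i j) j (fun z => φ j ((s i).pt j z) - ∫ y, φ j y ∂(m j)) ((s i).at' j γ) ≤ δ :=
    eventually_all.2 fun j => h1 j (φ j) (hφ j) (hs j) δ hδpos
  obtain ⟨i0, hi0⟩ := eventually_atTop.1 hev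
  refine ⟨i0, fun i hi => ?_⟩
  rw [Real.dist_eq, SpecialPoint.mean_eq]
  have h2 := (s i).product_bound (U i) (hU i) (fun j z => φ j ((s i).pt j z))
    (fun j => ∫ y, φ j y ∂(m j)) b (fun _ => δ) hb1 (fun j z => hfb j _) hcb (fun _ => hδpos.le)
    (fun j γ => hi0 i hi j γ) univ
  refine lt_of_le_of_lt h2 ?_
  rw [sum_const, card_univ, nsmul_eq_mul, hδ]
  have : (∏ j, b j) * ((Fintype.card ι : ℝ) * (ε / (2 * ((∏ j, b j) * (Fintype.card ι + 1))))) =
      ε / 2 * (Fintype.card ι / (Fintype.card ι + 1)) := by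
    field_simp
  rw [this]
  have h3 : (Fintype.card ι : ℝ) / (Fintype.card ι + 1) ≤ 1 := by
    rw [div_le_one (by positivity)]
    linarith
  nlinarith

/-- **The criterion.** -/
theorem joint [∀ j, SecondCountableTopology (Y j)] [∀ j, T2Space (Y j)]
    [∀ j, LocallyCompactSpace (Y j)] (m : ∀ j, Measure (Y j))
    [∀ j, IsProbabilityMeasure (m j)]
    (s : ℕ → SpecialPoint ι Y) (U : ∀ i, ι → Subgroup (s i).N)
    (hU : ∀ i j, ∀ v ∈ U i j, ∃ σ ∈ (s i).sep j, (s i).actHom j σ = (s i).actHom j v)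
    (h1 : OneVariable m s U) (Φ : (∀ j, Y j) → ℝ) (hc : Continuous Φ) (hs : HasCompactSupport Φ) :
    Tendsto (fun i => (s i).mean Φ) atTop (𝓝 (∫ y, Φ y ∂(Measure.pi m))) := by
  -- functions in `Tens`
  have hT : ∀ Ψ ∈ Tens Y, Integrable Ψ (Measure.pi m) ∧
      Tendsto (fun i => (s i).mean Ψ) atTop (𝓝 (∫ y, Ψ y ∂(Measure.pi m))) := by
    intro Ψ hΨ
    unfold Tens at hΨ
    induction hΨ using Submodule.span_induction with
    | mem x hx =>
      obtain ⟨φ, h2, h3, rfl⟩ := hx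
      exact ⟨integrable_of m h2 h3, tendsto_product m s U hU h1 h2 h3⟩
    | zero =>
      refine ⟨integrable_zero _ _ _, ?_⟩
      have h0 : ∀ i, (s i).mean (0 : (∀ j, Y j) → ℝ) = 0 := by
        intro i
        have := (s i).mean_smul 0 (0 : (∀ j, Y j) → ℝ)
        simpa using this
      simp only [h0]
      simp
    | add a b _ _ iha ihb =>
      refine ⟨iha.1.add ihb.1, ?_⟩
      have h2 : ∫ y, (a + b) y ∂(Measure.pi m) =
          ∫ y, a y ∂(Measure.pi m) + ∫ y, b y ∂(Measure.pi m) := integral_add iha.1 ihb.1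
      rw [h2]
      simp only [SpecialPoint.mean_add]
      exact iha.2.add ihb.2
    | smul c a _ iha =>
      refine ⟨iha.1.smul c, ?_⟩
      have h2 : ∫ y, (c • a) y ∂(Measure.pi m) = c * ∫ y, a y ∂(Measure.pi m) := by
        simp only [Pi.smul_apply, smul_eq_mul]
        exact integral_const_mul c _
      rw [h2]
      simp only [SpecialPoint.mean_smul]
      exact iha.2.const_mul c
  have hΦint : Integrable Φ (Measure.pi m) := hc.integrable_of_hasCompactSupport hs
  rw [Metric.tendsto_atTop]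
  intro ε hε
  obtain ⟨Ψ, hΨ, hΨε⟩ := dense Φ hc hs (ε := ε / 4) (by positivity)
  obtain ⟨hi, ht⟩ := hT Ψ hΨ
  obtain ⟨i0, hi0⟩ := Metric.tendsto_atTop.1 ht (ε / 4) (by positivity)
  refine ⟨i0, fun i hi' => ?_⟩
  have h2 := hi0 i hi'
  rw [Real.dist_eq] at h2 ⊢
  have h3 := (s i).abs_mean_sub_le hΨε
  have h4 : |∫ y, Φ y ∂(Measure.pi m) - ∫ y, Ψ y ∂(Measure.pi m)| ≤ ε / 4 := by
    rw [← integral_sub hΦint hi]
    have := norm_integral_le_of_norm_le_const (μ := Measure.pi m) (f := fun y => Φ y - Ψ y)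
      (C := ε / 4) (Eventually.of_forall fun y => hΨε y)
    simpa using this
  rw [abs_le] at h3 h4
  rw [abs_lt] at h2 ⊢
  constructor <;> linarith [h3.1, h3.2, h4.1, h4.2, h2.1, h2.2]

end

end Pool.Agent.N210.EQ
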